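import Pool.Agent.H98.RFC.Targets

/-!
# Board `rfc_modules`, row `PC`: pointwise continuity at positive temperature
-/

set_option autoImplicit false

noncomputable section

open Filter Topology Pool.Agent.H98.RFC

namespace Pool.Agent.H41.RFC

/-- Everything is built from finite sums of continuous functions of the couplings, the field
and the temperature, and the partition function is positive. -/
theorem pf_PC : T_PC := by
  intro R J J₀ h h₀ T T₀ Λ x hT₀ hJ hh hT
  -- the energy
  have hen : ∀ A : Set Site,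
      Tendsto (fun n => en R (J n) (h n) Λ A) atTop (𝓝 (en R J₀ h₀ Λ A)) := by
    intro A
    unfold en
    refine Tendsto.sub (Tendsto.const_mul _ ?_) ?_
    · refine tendsto_finset_sum _ (fun p _ => ?_)
      exact ((hJ (p.1 - p.2)).mul_const _).mul_const _
    · refine tendsto_finset_sum _ (fun z _ => ?_)
      exact (hh z).mul_const _
  -- the weights
  have hwt : ∀ (B : Set Site) (S : Finset Site),
      Tendsto (fun n => wt R (J n) (h n) (T n) Λ B S) atTop (𝓝 (wt R J₀ h₀ T₀ Λ B S)) := by
    intro B S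
    unfold wt
    exact (Real.continuous_exp.tendsto _).comp ((hen _).neg.div hT hT₀.ne')
  have hZ : ∀ B : Set Site,
      Tendsto (fun n => Zf R (J n) (h n) (T n) Λ B) atTop (𝓝 (Zf R J₀ h₀ T₀ Λ B)) := by
    intro B
    unfold Zf
    exact tendsto_finset_sum _ (fun S _ => hwt B S)
  have hZpos : ∀ B : Set Site, 0 < Zf R J₀ h₀ T₀ Λ B := by
    intro B
    unfold Zf
    refine Finset.sum_pos (fun S _ => ?_) ⟨∅, Finset.empty_mem_powerset Λ⟩
    unfold wt
    exact Real.exp_pos _
  have hmg : ∀ B : Set Site,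
      Tendsto (fun n => mg R (J n) (h n) (T n) Λ B x) atTop (𝓝 (mg R J₀ h₀ T₀ Λ B x)) := by
    intro B
    unfold mg
    refine Tendsto.div ?_ (hZ B) (hZpos B).ne'
    exact tendsto_finset_sum _ (fun S _ => (hwt B S).mul_const _)
  have hinf : Tendsto (fun n => inf1 R (J n) (h n) (T n) Λ x) atTop
      (𝓝 (inf1 R J₀ h₀ T₀ Λ x)) := by
    unfold inf1
    exact ((hmg _).sub (hmg _)).div_const _
  have hlim : infl R J₀ h₀ T₀ Λ x = inf1 R J₀ h₀ T₀ Λ x := by
    unfold infl
    rw [if_neg hT₀.ne']
  rw [hlim]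
  refine hinf.congr' ?_
  filter_upwards [hT.eventually (lt_mem_nhds hT₀)] with n hn
  unfold infl
  rw [if_neg (ne_of_gt hn)]

end Pool.Agent.H41.RFC
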